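import Pool.Agent.H33.EF.Def
import Pool.Agent.H33.EL.StdP

/-!
# Odd characteristic: the two forms of the root elements agree
-/

namespace Pool.Agent.H33.EF

variable {n : ℕ} {C : Matrix (Fin n) (Fin n) ℤ} {K : Type} [Field K] [Fintype (EL.Rt C)]

theorem xf_eq_EL (H : EL.Hyp C K) (a : EL.Rt C) (s : K) (x : EL.LL C K) :
    xf a s x = EL.xf a s x := by
  unfold xf EL.xf
  have h1 : ∀ y z : EL.LL C K, EL.brf y z = EL.br y z := fun _ _ => rfl
  have h2 := EL.isExt_e H a x
  rw [h1, h1, h2, EL.fm_e_left, smul_smul]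
  congr 2
  have h3 := EL.two_ne H
  field_simp

theorem XP_eq_EL (H : EL.Hyp C K) (a : EL.Rt C) : XP K a = EL.XP K a := by
  unfold XP EL.XP
  simp only [xf_eq_EL H]

theorem GP_eq_EL (H : EL.Hyp C K) : GP C K = EL.GP C K := by
  unfold GP EL.GP
  simp only [XP_eq_EL H]

theorem TP_eq_EL : TP C K = EL.TP C K := rfl

theorem allStd_EL (H : EL.Hyp C K) : AllStd C K := by
  have h := EL.allStd H
  unfold EL.AllStd at h
  unfold AllStd
  simp only [GP_eq_EL H, XP_eq_EL H, TP_eq_EL]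
  exact h

end Pool.Agent.H33.EF
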