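import Pool.Agent.H33.EF.AdjDefs
import Pool.Agent.H33.EF.OfEL
import Pool.Agent.H33.EL.Adj

/-!
# The adjoint groups of type E_6, E_7 (helper33)

`TA C K` is the full split torus of the adjoint group: all characters of the root lattice.
The adjoint group is generated by `TA C K` and the root groups.
-/

namespace Pool.Agent.H33.EF

open Pool.Agent.H33.EL

variable {n : ℕ}

section
variable {C : Matrix (Fin n) (Fin n) ℤ} {K : Type} [Field K]

/-- the value of the character with parameters `t` -/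
def chi (t : Fin n → Kˣ) (y : Fin n → ℤ) : Kˣ := ∏ i, t i ^ y i

theorem chi_add (t : Fin n → Kˣ) (y z : Fin n → ℤ) : chi t (y + z) = chi t y * chi t z := by
  unfold chi
  rw [← Finset.prod_mul_distrib]
  exact Finset.prod_congr rfl fun i _ => by rw [Pi.add_apply, zpow_add]

theorem chi_neg (t : Fin n → Kˣ) (y : Fin n → ℤ) : chi t (-y) = (chi t y)⁻¹ := by
  unfold chi
  rw [← Finset.prod_inv_distrib]
  exact Finset.prod_congr rfl fun i _ => by rw [Pi.neg_apply, zpow_neg]

theorem chi_single (t : Fin n → Kˣ) (i : Fin n) : chi t (Pi.single i 1) = t i := by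
  unfold chi
  rw [Finset.prod_eq_single i]
  · rw [Pi.single_eq_same, zpow_one]
  · intro j _ hj
    rw [Pi.single_eq_of_ne hj, zpow_zero]
  · intro h
    exact absurd (Finset.mem_univ i) h

/-- `h(t)` as a linear map -/
def taE (C : Matrix (Fin n) (Fin n) ℤ) (t : Fin n → Kˣ) : LL C K ≃ₗ[K] LL C K where
  toFun u := (u.1, fun b => ((chi t b.1 : Kˣ) : K) * u.2 b)
  invFun u := (u.1, fun b => (((chi t b.1)⁻¹ : Kˣ) : K) * u.2 b)
  map_add' u v := by
    refine Prod.ext rfl (funext fun b => ?_)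
    show ((chi t b.1 : Kˣ) : K) * (u.2 b + v.2 b) = _
    rw [mul_add]
    rfl
  map_smul' s u := by
    refine Prod.ext rfl (funext fun b => ?_)
    show ((chi t b.1 : Kˣ) : K) * (s * u.2 b) = s * (((chi t b.1 : Kˣ) : K) * u.2 b)
    ring
  left_inv u := by
    refine Prod.ext rfl (funext fun b => ?_)
    show (((chi t b.1)⁻¹ : Kˣ) : K) * (((chi t b.1 : Kˣ) : K) * u.2 b) = u.2 b
    rw [← mul_assoc, ← Units.val_mul, inv_mul_cancel, Units.val_one, one_mul]
  right_inv u := by
    refine Prod.ext rfl (funext fun b => ?_)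
    show ((chi t b.1 : Kˣ) : K) * ((((chi t b.1)⁻¹ : Kˣ) : K) * u.2 b) = u.2 b
    rw [← mul_assoc, ← Units.val_mul, mul_inv_cancel, Units.val_one, one_mul]

theorem taE_apply (t : Fin n → Kˣ) (x : LL C K) : taE C t x = ta t x := rfl

variable [Fintype (Rt C)]

theorem taE_e (t : Fin n → Kˣ) (b : Rt C) :
    taE C t (e K b) = ((chi t b.1 : Kˣ) : K) • e K b := by
  refine Prod.ext ?_ (funext fun r => ?_)
  · show (e K b).1 = _
    rw [Prod.smul_fst, e_fst, smul_zero]
  · show ((chi t r.1 : Kˣ) : K) * (e K b).2 r = ((chi t b.1 : Kˣ) : K) * (e K b).2 r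
    by_cases h : r = b
    · rw [h]
    · rw [e_snd_ne h, mul_zero, mul_zero]

theorem taE_hh (t : Fin n → Kˣ) (h : Fin n → K) : taE C t (hh C h) = hh C h := by
  refine Prod.ext rfl (funext fun r => ?_)
  show ((chi t r.1 : Kˣ) : K) * (hh C h).2 r = (hh C h).2 r
  rw [hh_snd, mul_zero]

theorem taE_mem (H : Hyp C K) (t : Fin n → Kˣ) : taE C t ∈ TT C K := by
  refine ⟨TorA_mem_GG H _ (fun b => ((chi t b.1 : Kˣ) : K)) (taE_hh t) (taE_e t) ?_ ?_,
    fun x hx => ?_⟩
  · intro a
    beta_reduce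
    rw [ng_val, chi_neg, ← Units.val_mul, mul_inv_cancel, Units.val_one]
  · intro a b d hd
    beta_reduce
    rw [hd, chi_add, Units.val_mul]
  · rw [eq_hh_of_mem hx, taE_hh]

/-- the simple roots -/
def sr (H : Hyp C K) (i : Fin n) : Rt C := ⟨Pi.single i 1, by
  unfold ip
  rw [Finset.sum_eq_single i]
  · rw [Finset.sum_eq_single i]
    · rw [Pi.single_eq_same, one_mul, mul_one, H.diag]
    · intro j _ hj
      rw [Pi.single_eq_of_ne hj, mul_zero]
    · intro h
      exact absurd (Finset.mem_univ i) h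
  · intro j _ hj
    refine Finset.sum_eq_zero fun k _ => ?_
    rw [Pi.single_eq_of_ne hj, zero_mul, zero_mul]
  · intro h
    exact absurd (Finset.mem_univ i) h⟩

theorem ip_expand (H : Hyp C K) (x y : Fin n → ℤ) :
    ip C x y = ∑ i, y i * ip C x (sr H i).1 := by
  unfold ip
  rw [Finset.sum_comm]
  refine Finset.sum_congr rfl fun j _ => ?_
  rw [Finset.mul_sum]
  refine Finset.sum_congr rfl fun i _ => ?_
  rw [Finset.sum_eq_single j]
  · show x i * C i j * y j = y j * (x i * C i j * (Pi.single j 1 : Fin n → ℤ) j)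
    rw [Pi.single_eq_same]
    ring
  · intro k _ hk
    show x i * C i k * (Pi.single j 1 : Fin n → ℤ) k = 0
    rw [Pi.single_eq_of_ne hk, mul_zero]
  · intro h
    exact absurd (Finset.mem_univ j) h

theorem ad_natAbs (H : Hyp C K) {a b : Fin n → ℤ} {i : Fin n} {s : ℤ} (hs : s = 1 ∨ s = -1)
    (hb : b = a - s • (sr H i).1) (h : 0 < s * a i) :
    ∑ j, (b j).natAbs < ∑ j, (a j).natAbs := by
  refine Finset.sum_lt_sum (fun j _ => ?_) ⟨i, Finset.mem_univ i, ?_⟩
  · by_cases hj : j = i
    · subst hj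
      have e : b j = a j - s := by
        rw [hb]
        show a j - s • (Pi.single j 1 : Fin n → ℤ) j = a j - s
        rw [Pi.single_eq_same, smul_eq_mul, mul_one]
      rw [e]
      rcases hs with rfl | rfl <;> omega
    · have e : b j = a j := by
        rw [hb]
        show a j - s • (Pi.single i 1 : Fin n → ℤ) j = a j
        rw [Pi.single_eq_of_ne hj, smul_zero, sub_zero]
      rw [e]
  · have e : b i = a i - s := by
      rw [hb]
      show a i - s • (Pi.single i 1 : Fin n → ℤ) i = a i - s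
      rw [Pi.single_eq_same, smul_eq_mul, mul_one]
    rw [e]
    rcases hs with rfl | rfl <;> omega

/-- the weights of an element of `TT` form a character of the root lattice -/
theorem wt_chi (H : Hyp C K) {g : LL C K ≃ₗ[K] LL C K} (hg : g ∈ TT C K) (t : Fin n → Kˣ)
    (ht : ∀ i, (t i : K) = wt g (sr H i)) (N : ℕ) :
    ∀ a : Rt C, ∑ i, (a.1 i).natAbs = N → wt g a = ((chi t a.1 : Kˣ) : K) := by
  induction N using Nat.strong_induction_on with
  | _ N ih =>
    intro a hN
    have h2 : ip C a.1 a.1 = 2 := a.2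
    rw [ip_expand H] at h2
    obtain ⟨i, hi⟩ : ∃ i, 0 < a.1 i * ip C a.1 (sr H i).1 := by
      by_contra hc
      push Not at hc
      have := Finset.sum_nonpos fun i (_ : i ∈ Finset.univ) => hc i
      omega
    have hsr : chi t (sr H i).1 = t i := chi_single t i
    rcases ip_cases H a (sr H i) with h | h | h | h | h
    · -- `a = -α_i`
      have ha : a = ng (sr H i) := by rw [h, ng_ng]
      rw [ha, wt_ng H hg, ng_val, chi_neg, hsr, Units.val_inv_eq_inv_val, ht]
    · obtain ⟨b, hb⟩ : ∃ b : Rt C, b.1 = a.1 + (sr H i).1 := ⟨⟨_, root_add H h⟩, rfl⟩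
      rw [h] at hi
      have h3 := ih _ (by
        rw [← hN]
        exact ad_natAbs H (a := a.1) (b := b.1) (i := i) (s := -1) (Or.inr rfl)
          (by rw [hb, neg_smul, one_smul, sub_neg_eq_add]) (by omega)) b rfl
      rw [wt_add H hg hb, hb, chi_add, hsr, Units.val_mul, ht] at h3
      exact mul_right_cancel₀ (wt_ne_zero H hg _) h3
    · rw [h, mul_zero] at hi
      exact absurd hi (lt_irrefl 0)
    · obtain ⟨b, hb⟩ : ∃ b : Rt C, b.1 = a.1 - (sr H i).1 := ⟨⟨_, root_sub H h⟩, rfl⟩
      rw [h] at hi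
      have h3 := ih _ (by
        rw [← hN]
        exact ad_natAbs H (a := a.1) (b := b.1) (i := i) (s := 1) (Or.inl rfl)
          (by rw [hb, one_smul]) (by omega)) b rfl
      have hab : a.1 = b.1 + (sr H i).1 := by rw [hb, sub_add_cancel]
      rw [wt_add H hg hab, h3, ← ht, hab, chi_add, hsr, Units.val_mul]
    · rw [← h, ← ht, hsr]

theorem TA_eq (H : Hyp C K) : TA C K = (TT C K).map (toP C K) := by
  apply le_antisymm
  · unfold TA
    rw [Subgroup.closure_le]
    rintro g ⟨t, ht⟩
    refine ⟨taE C t, taE_mem H t, ?_⟩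
    ext1 x
    rw [toP_apply, taE_apply, ht]
  · rintro _ ⟨g, hg, rfl⟩
    refine Subgroup.subset_closure
      ⟨fun i => Units.mk0 (wt g (sr H i)) (wt_ne_zero H hg _), fun x => ?_⟩
    rw [toP_apply, ← taE_apply]
    have h1 : g = taE C (fun i => Units.mk0 (wt g (sr H i)) (wt_ne_zero H hg _)) := by
      refine TT_ext H hg (taE_mem H _) fun a => ?_
      rw [wt_chi H hg (fun i => Units.mk0 (wt g (sr H i)) (wt_ne_zero H hg _))
        (fun i => rfl) _ a rfl]
      have h2 := TT_e H (taE_mem (C := C) H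
        (fun i => Units.mk0 (wt g (sr H i)) (wt_ne_zero H hg _))) a
      rw [taE_e] at h2
      have h3 := congrFun (congrArg Prod.snd h2) a
      simp only [Prod.smul_snd, Pi.smul_apply, e_snd_self, smul_eq_mul, mul_one] at h3
      exact h3
    rw [← h1]

end

section
variable {C : Matrix (Fin n) (Fin n) ℤ}

theorem GSt_map {A B : Type} [Group A] [Group B] (φ : A →* B) (T : Subgroup A)
    (X : Rt C → Subgroup A) (S : Set (Rt C)) :
    (GSt T X S).map φ = GSt (T.map φ) (fun a => (X a).map φ) S := by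
  unfold GSt
  rw [Subgroup.map_sup, Subgroup.map_iSup]
  congr 1
  exact iSup_congr fun a => Subgroup.map_iSup _ _

theorem stdDesc_map {A B : Type} [Group A] [Group B] (φ : A →* B) (hφ : Function.Injective φ)
    {T : Subgroup A} {X : Rt C → Subgroup A} {F : Subgroup A} (h : StdDesc T X F) :
    StdDesc (T.map φ) (fun a => (X a).map φ) (F.map φ) := by
  have hc : ∀ (S : Subgroup A) (x : A), φ x ∈ S.map φ ↔ x ∈ S := by
    intro S x
    constructor
    · rintro ⟨y, hy, hyx⟩
      rwa [← hφ hyx]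
    · exact fun hx => ⟨x, hx, rfl⟩
  have key : ∀ S : Set (Rt C),
      (ClosedRt S ∧ GSt (T.map φ) (fun a => (X a).map φ) S ≤ F.map φ ∧ ∀ f ∈ F.map φ, ∀ x,
        x ∈ GSt (T.map φ) (fun a => (X a).map φ) S ↔
          f * x * f⁻¹ ∈ GSt (T.map φ) (fun a => (X a).map φ) S) ↔
      (ClosedRt S ∧ GSt T X S ≤ F ∧ ∀ f ∈ F, ∀ x, x ∈ GSt T X S ↔ f * x * f⁻¹ ∈ GSt T X S) := by
    intro S
    rw [← GSt_map]
    refine and_congr_right fun _ => and_congr ?_ ?_
    · exact Subgroup.map_le_map_iff_of_injective hφ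
    · constructor
      · intro h1 f hf x
        have h2 := h1 (φ f) ⟨f, hf, rfl⟩ (φ x)
        rw [← map_mul, ← map_inv, ← map_mul, hc, hc] at h2
        exact h2
      · rintro h1 _ ⟨f, hf, rfl⟩ x
        constructor
        · rintro ⟨y, hy, rfl⟩
          rw [← map_mul, ← map_inv, ← map_mul, hc]
          exact (h1 f hf y).1 hy
        · rintro ⟨y, hy, hyx⟩
          have h3 : φ (f⁻¹ * y * f) = x := by
            rw [map_mul, map_mul, hyx, map_inv]
            group
          rw [← h3, hc, h1 f hf]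
          have h4 : f * (f⁻¹ * y * f) * f⁻¹ = y := by group
          rw [h4]
          exact hy
  unfold StdDesc at h ⊢
  simp only [key]
  exact h

end

variable {C : Matrix (Fin n) (Fin n) ℤ} {K : Type} [Field K] [Fintype (Rt C)]

theorem adStd (H : Hyp C K) : AdStd C K := by
  intro F h1 h2
  have hfin : Finite K := Nat.finite_of_card_ne_zero (by rcases H.card with h | h | h <;> omega)
  obtain ⟨p, hp⟩ := CharP.exists K
  have hpp : Fact p.Prime := ⟨CharP.char_is_prime K p⟩
  have hle : TA C K ⊔ GP C K ≤ (GG C K).map (toP C K) := by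
    refine sup_le ?_ ?_
    · rw [TA_eq H]
      exact Subgroup.map_mono TT_le_GG
    · rw [GP_eq_EL H, EL.GP_eq H]
      exact Subgroup.map_mono (Gr_le_GG H)
  have hF : F = (F.comap (toP C K)).map (toP C K) := by
    rw [Subgroup.map_comap_eq, eq_comm, inf_eq_right]
    intro x hx
    obtain ⟨y, -, hy⟩ := hle (h2 hx)
    exact ⟨y, hy⟩
  have h3 : F.comap (toP C K) ≤ GG C K := by
    intro x hx
    obtain ⟨y, hy, hyx⟩ := hle (h2 hx)
    rw [← toP_inj hyx]
    exact hy
  have h4 : TT C K ≤ F.comap (toP C K) := by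
    intro x hx
    exact h1 ((TA_eq H) ▸ ⟨x, hx, rfl⟩)
  have h5 := stdDesc_map (toP C K) toP_inj
    (adj0 H (p := p) (T1_le_TT H) le_rfl (fun m hm t ht => NN_conj_TT H hm t ht)
      (F.comap (toP C K)) h3 h4)
  rw [← hF, ← TA_eq H] at h5
  have h6 : (fun a : Rt C => XP K a) = fun a : Rt C => (Xg K a).map (toP C K) :=
    funext fun a => by rw [XP_eq_EL H, EL.XP_eq H]
  rw [h6]
  exact h5

end Pool.Agent.H33.EF
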