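import Pool.Agent.H33.EF.Hyp88
import Pool.Agent.H33.EL.Hyp6

/-!
# The hypotheses for the Cartan matrix of type E_6 over the fields with 8 and 11 elements
-/

namespace Pool.Agent.H33.EF

open Pool.Agent.H33.EL

theorem nd6 (K : Type) [Field K] (h3 : (3 : K) ≠ 0) (h : Fin 6 → K)
    (hh : ∀ i, ∑ j, (CartanMatrix.E₆ i j : K) * h j = 0) : h = 0 := by
  have g0 := hh 0
  have g1 := hh 1
  have g2 := hh 2
  have g3 := hh 3
  have g4 := hh 4
  have g5 := hh 5
  simp [CartanMatrix.E₆, Fin.sum_univ_succ] at g0 g1 g2 g3 g4 g5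
  have k0 : 3 * h 0 = 0 := by
    linear_combination 4 * g0 + 3 * g1 + 5 * g2 + 6 * g3 + 4 * g4 + 2 * g5
  have k1 : 3 * h 1 = 0 := by
    linear_combination 3 * g0 + 6 * g1 + 6 * g2 + 9 * g3 + 6 * g4 + 3 * g5
  have k2 : 3 * h 2 = 0 := by
    linear_combination 5 * g0 + 6 * g1 + 10 * g2 + 12 * g3 + 8 * g4 + 4 * g5
  have k3 : 3 * h 3 = 0 := by
    linear_combination 6 * g0 + 9 * g1 + 12 * g2 + 18 * g3 + 12 * g4 + 6 * g5
  have k4 : 3 * h 4 = 0 := by
    linear_combination 4 * g0 + 6 * g1 + 8 * g2 + 12 * g3 + 10 * g4 + 5 * g5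
  have k5 : 3 * h 5 = 0 := by
    linear_combination 2 * g0 + 3 * g1 + 4 * g2 + 6 * g3 + 5 * g4 + 4 * g5
  funext i
  fin_cases i
  · exact (mul_eq_zero.1 k0).resolve_left h3
  · exact (mul_eq_zero.1 k1).resolve_left h3
  · exact (mul_eq_zero.1 k2).resolve_left h3
  · exact (mul_eq_zero.1 k3).resolve_left h3
  · exact (mul_eq_zero.1 k4).resolve_left h3
  · exact (mul_eq_zero.1 k5).resolve_left h3

theorem hyp6_11 (K : Type) [Field K] (hK : Nat.card K = 11) : EL.Hyp CartanMatrix.E₆ K := by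
  have : Fact (Nat.Prime 7) := ⟨by norm_num⟩
  have H0 := hyp6 (ZMod 7) (by rw [Nat.card_eq_fintype_card, ZMod.card])
  have hfin : Finite K := Nat.finite_of_card_ne_zero (by rw [hK]; norm_num)
  have := Fintype.ofFinite K
  have hcard : Fintype.card K = 11 := by rw [← Nat.card_eq_fintype_card, hK]
  have h11 : (11 : K) = 0 := by
    have := FiniteField.cast_card_eq_zero K
    rw [hcard] at this
    exact_mod_cast this
  have h3 : (3 : K) ≠ 0 := by
    intro h
    have h1 : (1 : K) = 4 * 3 - 11 := by norm_num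
    rw [h11, h, mul_zero, sub_zero] at h1
    exact one_ne_zero h1
  exact ⟨H0.symm, H0.diag, H0.pos, nd6 K h3, H0.r0, H0.r1, H0.ra, H0.rb, Or.inr (Or.inr hK)⟩

theorem hyp68 (K : Type) [Field K] (hK : Nat.card K = 8) : EQ.Hyp CartanMatrix.E₆ K := by
  have : Fact (Nat.Prime 7) := ⟨by norm_num⟩
  have H0 := hyp6 (ZMod 7) (by rw [Nat.card_eq_fintype_card, ZMod.card])
  have h2 := two_of_card hK
  have h3 : (3 : K) ≠ 0 := by
    intro h
    have h1 : (1 : K) = 3 - 2 := by norm_num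
    rw [h2, h, sub_zero] at h1
    exact one_ne_zero h1
  exact ⟨H0.symm, H0.diag, H0.pos, nd6 K h3, e6_even, H0.ra, H0.rb, h2, hK⟩

end Pool.Agent.H33.EF
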