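import Pool.Agent.H33.EF.Def
import Pool.Agent.H33.EQ.Std

/-!
# The field with 8 elements: the final statement (modulo the nonexistence of `Ctx`)
-/

namespace Pool.Agent.H33.EF

open Pool.Agent.H33.EQ

variable {n : ℕ} {C : Matrix (Fin n) (Fin n) ℤ} {K : Type} [Field K] [Fintype (EL.Rt C)]

/-- linear automorphisms as permutations -/
def toP (C : Matrix (Fin n) (Fin n) ℤ) (K : Type) [Field K] :
    (LL C K ≃ₗ[K] LL C K) →* Equiv.Perm (LL C K) where
  toFun g := g.toEquiv
  map_one' := rfl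
  map_mul' _ _ := rfl

theorem toP_apply (g : LL C K ≃ₗ[K] LL C K) (x : LL C K) : toP C K g x = g x := rfl

theorem toP_inj : Function.Injective (toP C K) := by
  intro g h hgh
  ext1 x
  rw [← toP_apply, hgh, toP_apply]

theorem xf_eq_EQ (H : EQ.Hyp C K) (a : Rt C) (s : K) (x : LL C K) : xf a s x = xr a s x :=
  (xr_apply H a s x).symm

theorem XP_eq_EQ (H : EQ.Hyp C K) (a : Rt C) : XP K a = (Xg K a).map (toP C K) := by
  unfold XP Xg
  rw [MonoidHom.map_closure]
  congr 1
  ext g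
  constructor
  · rintro ⟨s, hs⟩
    refine ⟨xr a s, ⟨s, rfl⟩, ?_⟩
    ext1 x
    rw [toP_apply, hs, xf_eq_EQ H]
  · rintro ⟨_, ⟨s, rfl⟩, rfl⟩
    exact ⟨s, fun x => by rw [toP_apply, xf_eq_EQ H]⟩

theorem GP_eq_EQ (H : EQ.Hyp C K) : GP C K = (Gr C K).map (toP C K) := by
  unfold GP Gr
  rw [Subgroup.map_iSup]
  exact iSup_congr fun a => XP_eq_EQ H a

theorem TP_eq_EQ : TP C K = (T1 C K).map (toP C K) := by
  unfold TP T1
  rw [MonoidHom.map_closure]
  congr 1
  ext g
  constructor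
  · rintro ⟨a, c, hc, hs⟩
    refine ⟨hd C a.1 (Units.mk0 c hc), ⟨a, _, rfl⟩, ?_⟩
    ext1 x
    rw [toP_apply, hs]
    refine Prod.ext rfl (funext fun b => ?_)
    simp [tf, hd]
  · rintro ⟨_, ⟨a, c, rfl⟩, rfl⟩
    refine ⟨a, (c : K), c.ne_zero, fun x => ?_⟩
    rw [toP_apply]
    refine Prod.ext rfl (funext fun b => ?_)
    simp [tf, hd]

theorem allStd_EQ (H : EQ.Hyp C K)
    (hno : ∀ F : Subgroup (LL C K ≃ₗ[K] LL C K), Ctx F → False) : EF.AllStd C K := by
  refine ⟨?_, ?_⟩
  · rw [TP_eq_EQ, GP_eq_EQ H]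
    exact Subgroup.map_mono (T1_le_Gr H)
  · intro G _ π hπ T X hT hk hX F hF
    -- lift `π` to the linear group
    have hr : ∀ g : G, π g ∈ (toP C K).range := by
      intro g
      have h1 : π g ∈ GP C K := hπ ▸ ⟨g, rfl⟩
      rw [GP_eq_EQ H] at h1
      obtain ⟨y, -, hy⟩ := h1
      exact ⟨y, hy⟩
    let π' : G →* (LL C K ≃ₗ[K] LL C K) :=
      ((MonoidHom.ofInjective (toP_inj (C := C) (K := K))).symm.toMonoidHom).comp
        (π.codRestrict (toP C K).range hr)
    have hπ' : ∀ g, toP C K (π' g) = π g := by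
      intro g
      have := (MonoidHom.ofInjective (toP_inj (C := C) (K := K))).apply_symm_apply
        ⟨π g, hr g⟩
      exact congrArg Subtype.val this
    have hcomp : (toP C K).comp π' = π := MonoidHom.ext hπ'
    have hmap : ∀ D : Subgroup G, (D.map π').map (toP C K) = D.map π := by
      intro D
      rw [Subgroup.map_map, hcomp]
    have hinj := Subgroup.map_injective (toP_inj (C := C) (K := K))
    refine std_gen H hno π' ?_ T ?_ ?_ X ?_ F hF
    · rintro x ⟨g, rfl⟩
      have h1 : π g ∈ GP C K := hπ ▸ ⟨g, rfl⟩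
      rw [GP_eq_EQ H] at h1
      obtain ⟨y, hy, hy'⟩ := h1
      have h2 : π' g = y := toP_inj (by rw [hπ', hy'])
      rw [h2]
      exact hy
    · apply hinj
      show (T.map π').map (toP C K) = (T1 C K).map (toP C K)
      rw [hmap, hT, TP_eq_EQ]
    · intro g hg
      apply hk
      rw [MonoidHom.mem_ker] at hg ⊢
      rw [← hπ' g, hg, map_one]
    · intro a
      apply hinj
      show ((X a).map π').map (toP C K) = (Xg K a).map (toP C K)
      rw [hmap, hX, XP_eq_EQ H]

end Pool.Agent.H33.EF
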