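import Pool.Agent.H33.EF.Adj
import Pool.Agent.H33.EF.OfEQ
import Pool.Agent.H33.EF.Hyp6x

/-!
# The adjoint group when its torus is the image of the simply connected one (E_6, 8 elements)
-/

namespace Pool.Agent.H33.EF

open Pool.Agent.H33.EL

variable {n : ℕ}

theorem ip_expand' (C : Matrix (Fin n) (Fin n) ℤ) (x y : Fin n → ℤ) :
    ip C x y = ∑ i, y i * ip C x (Pi.single i 1) := by
  unfold ip
  rw [Finset.sum_comm]
  refine Finset.sum_congr rfl fun j _ => ?_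
  rw [Finset.mul_sum]
  refine Finset.sum_congr rfl fun i _ => ?_
  rw [Finset.sum_eq_single j]
  · rw [Pi.single_eq_same]
    ring
  · intro k _ hk
    rw [Pi.single_eq_of_ne hk, mul_zero]
  · intro h
    exact absurd (Finset.mem_univ j) h

theorem TP_le_TA (C : Matrix (Fin n) (Fin n) ℤ) (K : Type) [Field K] : TP C K ≤ TA C K := by
  unfold TP
  rw [Subgroup.closure_le]
  rintro g ⟨a, c, hc, hg⟩
  refine Subgroup.subset_closure
    ⟨fun i => (Units.mk0 c hc) ^ ip C a.1 (Pi.single i 1), fun x => ?_⟩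
  rw [hg]
  refine Prod.ext rfl (funext fun b => ?_)
  show c ^ ip C a.1 b.1 * x.2 b =
    ((∏ i, ((Units.mk0 c hc) ^ ip C a.1 (Pi.single i 1)) ^ b.1 i : Kˣ) : K) * x.2 b
  have h1 : (∏ i, ((Units.mk0 c hc) ^ ip C a.1 (Pi.single i 1)) ^ b.1 i : Kˣ) =
      (Units.mk0 c hc) ^ ip C a.1 b.1 := by
    rw [ip_expand' C a.1 b.1]
    have h2 : ∀ s : Finset (Fin n), (Units.mk0 c hc) ^ (∑ i ∈ s, b.1 i * ip C a.1 (Pi.single i 1)) =
        ∏ i ∈ s, ((Units.mk0 c hc) ^ ip C a.1 (Pi.single i 1)) ^ b.1 i := by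
      intro s
      classical
      induction s using Finset.induction_on with
      | empty => rw [Finset.sum_empty, Finset.prod_empty, zpow_zero]
      | insert i s hi ih =>
        rw [Finset.sum_insert hi, Finset.prod_insert hi, zpow_add, ih, ← zpow_mul,
          mul_comm (b.1 i)]
    rw [h2]
  rw [h1, Units.val_zpow_eq_zpow_val]
  rfl

theorem adStd_of {C : Matrix (Fin n) (Fin n) ℤ} {K : Type} [Field K] [Fintype (Rt C)]
    (h : AllStd C K) (hT : TA C K ≤ TP C K) : AdStd C K := by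
  have hTT : TA C K = TP C K := le_antisymm hT (TP_le_TA C K)
  obtain ⟨h1, h2⟩ := h
  intro F hF1 hF2
  rw [hTT] at hF1 hF2 ⊢
  rw [sup_eq_right.2 h1] at hF2
  have hX : ∀ a, XP K a ≤ GP C K := fun a => le_iSup (fun a : Rt C => XP K a) a
  have hmap : ∀ D : Subgroup (Equiv.Perm (LL C K)), D ≤ GP C K →
      (D.subgroupOf (GP C K)).map (GP C K).subtype = D := by
    intro D hD
    rw [Subgroup.subgroupOf_map_subtype, inf_eq_left]
    exact hD
  have h3 := h2 (GP C K) (GP C K).subtype (Subgroup.range_subtype _)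
    ((TP C K).subgroupOf (GP C K)) (fun a => (XP K a).subgroupOf (GP C K)) (hmap _ h1)
    (by rw [Subgroup.ker_subtype]; exact bot_le) (fun a => hmap _ (hX a))
    (F.subgroupOf (GP C K)) (Subgroup.comap_mono hF1)
  have h4 := stdDesc_map (GP C K).subtype (GP C K).subtype_injective h3
  rw [hmap _ h1, hmap _ hF2] at h4
  have h5 : (fun a => ((XP K a).subgroupOf (GP C K)).map (GP C K).subtype) =
      fun a : Rt C => XP K a := funext fun a => hmap _ (hX a)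
  rw [h5] at h4
  exact h4

/-- three times the fundamental coweights of `E_6` in the basis of the simple roots -/
def Y6 : Fin 6 → Fin 6 → ℤ :=
  ![![4, 3, 5, 6, 4, 2], ![3, 6, 6, 9, 6, 3], ![5, 6, 10, 12, 8, 4], ![6, 9, 12, 18, 12, 6],
    ![4, 6, 8, 12, 10, 5], ![2, 3, 4, 6, 5, 4]]

theorem Y6_ip (i : Fin 6) (b : Fin 6 → ℤ) : ip CartanMatrix.E₆ (Y6 i) b = 3 * b i := by
  fin_cases i <;>
  · simp [ip, Y6, CartanMatrix.E₆, Fin.sum_univ_succ]
    ring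

theorem TA_le_TP68 (K : Type) [Field K] (hK : Nat.card K = 8) :
    TA CartanMatrix.E₆ K ≤ TP CartanMatrix.E₆ K := by
  have H := hyp68 K hK
  have hfin : Finite K := Nat.finite_of_card_ne_zero (by rw [hK]; norm_num)
  have := Fintype.ofFinite K
  have h7 : ∀ t : Kˣ, t ^ 7 = 1 := by
    intro t
    have h := pow_card_eq_one' (x := t)
    rw [Nat.card_units, hK] at h
    exact h
  unfold TA
  rw [Subgroup.closure_le]
  rintro g ⟨t, ht⟩
  rw [TP_eq_EQ]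
  refine ⟨EQ.hd CartanMatrix.E₆ (Y6 0) (t 0 ^ 5) * EQ.hd CartanMatrix.E₆ (Y6 1) (t 1 ^ 5) *
    EQ.hd CartanMatrix.E₆ (Y6 2) (t 2 ^ 5) * EQ.hd CartanMatrix.E₆ (Y6 3) (t 3 ^ 5) *
    EQ.hd CartanMatrix.E₆ (Y6 4) (t 4 ^ 5) * EQ.hd CartanMatrix.E₆ (Y6 5) (t 5 ^ 5), ?_, ?_⟩
  · exact mul_mem (mul_mem (mul_mem (mul_mem (mul_mem (EQ.hd_mem_T1 H _ _) (EQ.hd_mem_T1 H _ _))
      (EQ.hd_mem_T1 H _ _)) (EQ.hd_mem_T1 H _ _)) (EQ.hd_mem_T1 H _ _)) (EQ.hd_mem_T1 H _ _)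
  · ext1 x
    rw [ht]
    refine Prod.ext rfl (funext fun b => ?_)
    have key : ∀ i, (t i ^ 5) ^ (3 * b.1 i) = t i ^ b.1 i := by
      intro i
      have e : (t i ^ 5) ^ (3 * b.1 i) = ((t i ^ 7) ^ 2 * t i) ^ b.1 i := by
        rw [zpow_mul]
        congr 1
        rw [zpow_ofNat]
        simp only [← pow_mul]
        rw [← pow_succ]
      rw [e, h7, one_pow, one_mul]
    show ((((t 0 ^ 5) ^ ip CartanMatrix.E₆ (Y6 0) b.1 : Kˣ)) : K) *
      (((((t 1 ^ 5) ^ ip CartanMatrix.E₆ (Y6 1) b.1 : Kˣ)) : K) *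
      (((((t 2 ^ 5) ^ ip CartanMatrix.E₆ (Y6 2) b.1 : Kˣ)) : K) *
      (((((t 3 ^ 5) ^ ip CartanMatrix.E₆ (Y6 3) b.1 : Kˣ)) : K) *
      (((((t 4 ^ 5) ^ ip CartanMatrix.E₆ (Y6 4) b.1 : Kˣ)) : K) *
      (((((t 5 ^ 5) ^ ip CartanMatrix.E₆ (Y6 5) b.1 : Kˣ)) : K) * x.2 b))))) =
      ((∏ i, t i ^ b.1 i : Kˣ) : K) * x.2 b
    simp only [Y6_ip, key, Fin.prod_univ_six, Units.val_mul]
    ring

end Pool.Agent.H33.EF
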