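import Pool.Agent.H33.EF.Def

/-!
# The adjoint groups and the subsystem subgroups: definitions (helper33)

`TA C K` is the full split torus of the adjoint group: all characters of the root lattice.
The adjoint group is generated by `TA C K` and the root groups.
-/

namespace Pool.Agent.H33.EF

open Pool.Agent.H33.EL

variable {n : ℕ}

/-- the toral element `h(t)`, `t = (t_1, …, t_n)`: multiplication by `∏ t_i ^ b_i` on `e_b`,
`b = ∑ b_i α_i`, and the identity on the toral part -/
def ta {C : Matrix (Fin n) (Fin n) ℤ} {K : Type} [Field K] (t : Fin n → Kˣ)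
    (x : LL C K) : LL C K := (x.1, fun b => ((∏ i, t i ^ b.1 i : Kˣ) : K) * x.2 b)

/-- the split torus of the adjoint group -/
def TA (C : Matrix (Fin n) (Fin n) ℤ) (K : Type) [Field K] :
    Subgroup (Equiv.Perm (LL C K)) :=
  Subgroup.closure {g | ∃ t : Fin n → Kˣ, ∀ x, g x = ta t x}

/-- the standard description for all subgroups of the adjoint group `⟨TA, X_a⟩` over its torus -/
def AdStd (C : Matrix (Fin n) (Fin n) ℤ) [Fintype (Rt C)] (K : Type) [Field K] : Prop :=
  ∀ F : Subgroup (Equiv.Perm (LL C K)), TA C K ≤ F → F ≤ TA C K ⊔ GP C K →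
    StdDesc (TA C K) (fun a : Rt C => XP K a) F

/-- the torus of a set `M` of roots, generated by the `h_a(c)`, `a ∈ M` -/
def TPM (C : Matrix (Fin n) (Fin n) ℤ) (K : Type) [Field K] (M : Set (Rt C)) :
    Subgroup (Equiv.Perm (LL C K)) :=
  Subgroup.closure {g | ∃ a ∈ M, ∃ c : K, c ≠ 0 ∧ ∀ x, g x = tf a c x}

/-- the group generated by the root groups of the roots in `M` -/
def GPM (C : Matrix (Fin n) (Fin n) ℤ) [Fintype (Rt C)] (K : Type) [Field K] (M : Set (Rt C)) :
    Subgroup (Equiv.Perm (LL C K)) := ⨆ a ∈ M, XP K a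

/-- the standard description for all subgroups of `GPM C K M` over its torus `TPM C K M` -/
def SubStd (C : Matrix (Fin n) (Fin n) ℤ) [Fintype (Rt C)] (K : Type) [Field K]
    (M : Set (Rt C)) : Prop :=
  TPM C K M ≤ GPM C K M ∧
  ∀ F : Subgroup (Equiv.Perm (LL C K)), TPM C K M ≤ F → F ≤ GPM C K M →
    ∃! S : Set (Rt C), S ⊆ M ∧ ClosedRt S ∧ GSt (TPM C K M) (fun a => XP K a) S ≤ F ∧
      ∀ f ∈ F, ∀ x, x ∈ GSt (TPM C K M) (fun a => XP K a) S ↔
        f * x * f⁻¹ ∈ GSt (TPM C K M) (fun a => XP K a) S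

/-- the roots of `E_8` in the span of the first seven simple roots: a root system of type `E_7` -/
def M7 : Set (Rt CartanMatrix.E₈) := {a | a.1 7 = 0}

/-- the roots of `E_8` in the span of the first six simple roots: a root system of type `E_6` -/
def M6 : Set (Rt CartanMatrix.E₈) := {a | a.1 6 = 0 ∧ a.1 7 = 0}

end Pool.Agent.H33.EF
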