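import Pool.Agent.H33.EL.StdD

/-!
# The final statement for the types E_6, E_7, E_8, in all characteristics (helper33)

The Chevalley group as a group of permutations of the (finite) Lie algebra `LL C K`, given by
explicit formulas valid in every characteristic.
-/

namespace Pool.Agent.H33.EF

open Pool.Agent.H33.EL

variable {n : ℕ}

/-- `x_a(s) x = x + s [e_a,x] + s² x_(-a) e_a`; as `[e_a,[e_a,x]] = 2 x_(-a) e_a` this is
`exp(s ad e_a)`, written without the division by two -/
def xf {C : Matrix (Fin n) (Fin n) ℤ} [Fintype (Rt C)] {K : Type} [Field K] (a : Rt C) (s : K)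
    (x : LL C K) : LL C K :=
  x + s • brf (e K a) x + (s ^ 2 * x.2 (ng a)) • e K a

/-- `h_a(c)`: multiplication by `c^(a,b)` on `e_b`, identity on the toral part -/
def tf {C : Matrix (Fin n) (Fin n) ℤ} {K : Type} [Field K] (a : Rt C) (c : K)
    (x : LL C K) : LL C K := (x.1, fun b => c ^ ip C a.1 b.1 * x.2 b)

/-- the root subgroup -/
def XP {C : Matrix (Fin n) (Fin n) ℤ} [Fintype (Rt C)] (K : Type) [Field K] (a : Rt C) :
    Subgroup (Equiv.Perm (LL C K)) :=
  Subgroup.closure {g | ∃ s : K, ∀ x, g x = xf a s x}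

/-- the split torus -/
def TP (C : Matrix (Fin n) (Fin n) ℤ) (K : Type) [Field K] :
    Subgroup (Equiv.Perm (LL C K)) :=
  Subgroup.closure {g | ∃ (a : Rt C) (c : K), c ≠ 0 ∧ ∀ x, g x = tf a c x}

/-- the adjoint Chevalley group -/
def GP (C : Matrix (Fin n) (Fin n) ℤ) [Fintype (Rt C)] (K : Type) [Field K] :
    Subgroup (Equiv.Perm (LL C K)) := ⨆ a : Rt C, XP K a

/-- every overgroup of the torus has a standard description, for all groups `G` over `GP C K` -/
def AllStd (C : Matrix (Fin n) (Fin n) ℤ) [Fintype (Rt C)] (K : Type) [Field K] : Prop :=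
  TP C K ≤ GP C K ∧
  ∀ (G : Type) [Group G] (π : G →* Equiv.Perm (LL C K)), π.range = GP C K →
    ∀ (T : Subgroup G) (X : Rt C → Subgroup G), T.map π = TP C K → π.ker ≤ T →
      (∀ a, (X a).map π = XP K a) → ∀ F : Subgroup G, T ≤ F → StdDesc T X F

end Pool.Agent.H33.EF
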