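import Pool.Agent.H33.EQ.Defs
import Pool.Agent.H33.EL.Hyp8

/-!
# The hypotheses for the Cartan matrix of type E_8 over the field with 8 elements
-/

namespace Pool.Agent.H33.EF

open Pool.Agent.H33.EL

theorem two_of_card {K : Type} [Field K] (hK : Nat.card K = 8) : (2 : K) = 0 := by
  have hfin : Finite K := Nat.finite_of_card_ne_zero (by rw [hK]; norm_num)
  obtain ⟨p, hp⟩ := CharP.exists K
  have hpp : Fact p.Prime := ⟨CharP.char_is_prime K p⟩
  have := Fintype.ofFinite K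
  obtain ⟨m, hp', hm⟩ := FiniteField.card K p
  rw [← Nat.card_eq_fintype_card, hK] at hm
  have h1 : p ∣ 8 := by
    rw [hm]
    exact dvd_pow_self p m.ne_zero
  have h2 : p ∣ 2 := by
    have h3 : p ∣ 2 ^ 3 := h1
    exact hpp.out.dvd_of_dvd_pow h3
  exact_mod_cast (CharP.cast_eq_zero_iff K p 2).2 h2

theorem hyp88 (K : Type) [Field K] (hK : Nat.card K = 8) :
    EQ.Hyp CartanMatrix.E₈ K where
  symm := Hyp8_symm
  diag := CartanMatrix.E₈_diag
  pos := HypR_pos
  nd := by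
    intro h hh
    have h0 := hh 0
    have h1 := hh 1
    have h2 := hh 2
    have h3 := hh 3
    have h4 := hh 4
    have h5 := hh 5
    have h6 := hh 6
    have h7 := hh 7
    simp only [Fin.sum_univ_eight, CartanMatrix.E₈, Matrix.of_apply,
      Matrix.cons_val', Matrix.cons_val_zero, Matrix.cons_val_one, Matrix.cons_val,
      Matrix.cons_val_fin_one, Int.cast_ofNat, Int.cast_zero, Int.cast_neg, Int.cast_one,
      zero_mul, add_zero, zero_add] at h0 h1 h2 h3 h4 h5 h6 h7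
    funext i
    show h i = 0
    fin_cases i
    · show h 0 = 0
      linear_combination 4 * h0 + 5 * h1 + 7 * h2 + 10 * h3 + 8 * h4 + 6 * h5 + 4 * h6 + 2 * h7
    · show h 1 = 0
      linear_combination 5 * h0 + 8 * h1 + 10 * h2 + 15 * h3 + 12 * h4 + 9 * h5 + 6 * h6 + 3 * h7
    · show h 2 = 0
      linear_combination 7 * h0 + 10 * h1 + 14 * h2 + 20 * h3 + 16 * h4 + 12 * h5 + 8 * h6 + 4 * h7
    · show h 3 = 0
      linear_combination 10 * h0 + 15 * h1 + 20 * h2 + 30 * h3 + 24 * h4 + 18 * h5 + 12 * h6 + 6 * h7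
    · show h 4 = 0
      linear_combination 8 * h0 + 12 * h1 + 16 * h2 + 24 * h3 + 20 * h4 + 15 * h5 + 10 * h6 + 5 * h7
    · show h 5 = 0
      linear_combination 6 * h0 + 9 * h1 + 12 * h2 + 18 * h3 + 15 * h4 + 12 * h5 + 8 * h6 + 4 * h7
    · show h 6 = 0
      linear_combination 4 * h0 + 6 * h1 + 8 * h2 + 12 * h3 + 10 * h4 + 8 * h5 + 6 * h6 + 3 * h7
    · show h 7 = 0
      linear_combination 2 * h0 + 3 * h1 + 4 * h2 + 6 * h3 + 5 * h4 + 4 * h5 + 3 * h6 + 2 * h7
  r0 := fun y hy => e8_even y hy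
  ra := fun a b h => ((HypA_all Hyp8_symm HypR_pos Hyp8_root Hyp8_P a) b).1 h
  rb := fun a b h => ((HypA_all Hyp8_symm HypR_pos Hyp8_root Hyp8_P a) b).2 h
  two := two_of_card hK
  card := hK

end Pool.Agent.H33.EF
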