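import Pool.Agent.H33.EF.Adj

/-!
# Subsystem subgroups: the standard description for `⟨X_a : a ∈ M⟩` from the one for the big group

`M` is the set of the roots orthogonal to a set `D` of roots, and the torus is the product of
the tori of `M` and of `D`, which intersect trivially.  Everything happens in an abstract group `A`
with root elements `x a s` and toral elements `h a c`.
-/

namespace Pool.Agent.H33.EF

open Pool.Agent.H33.EL

variable {n : ℕ} {C : Matrix (Fin n) (Fin n) ℤ} {K : Type} [Field K] {A : Type} [Group A]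

/-- root elements and toral elements in a group -/
structure RS (C : Matrix (Fin n) (Fin n) ℤ) (K : Type) [Field K] {A : Type} [Group A]
    (x : Rt C → K → A) (h : Rt C → Kˣ → A) : Prop where
  conj : ∀ d a (c : Kˣ) (s : K), h d c * x a s * (h d c)⁻¹ = x a (((c ^ ip C d.1 a.1 : Kˣ) : K) * s)
  comm : ∀ a d, ip C a.1 d.1 = 0 → ∀ s u : K, x a s * x d u = x d u * x a s
  inj : ∀ a (s s' : K), x a s = x a s' → s = s'
  hcomm : ∀ a d (c c' : Kˣ), h a c * h d c' = h d c' * h a c
  hmem : ∀ a (c : Kˣ), ∀ E : Subgroup A, (∀ s, x a s ∈ E) → (∀ s, x (ng a) s ∈ E) → h a c ∈ E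

/-- the root group -/
def XR (x : Rt C → K → A) (a : Rt C) : Subgroup A := Subgroup.closure {g | ∃ s : K, g = x a s}

/-- the torus of a set of roots -/
def TR (h : Rt C → Kˣ → A) (M : Set (Rt C)) : Subgroup A :=
  Subgroup.closure {g | ∃ a ∈ M, ∃ c : Kˣ, g = h a c}

/-- the group generated by the root groups of a set of roots -/
def GR (x : Rt C → K → A) (M : Set (Rt C)) : Subgroup A := ⨆ a ∈ M, XR x a

theorem XR_le {x : Rt C → K → A} {a : Rt C} {E : Subgroup A} : XR x a ≤ E ↔ ∀ s, x a s ∈ E := by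
  unfold XR
  rw [Subgroup.closure_le]
  constructor
  · exact fun h s => h ⟨s, rfl⟩
  · rintro h _ ⟨s, rfl⟩
    exact h s

theorem GR_le {x : Rt C → K → A} {M : Set (Rt C)} {E : Subgroup A} :
    GR x M ≤ E ↔ ∀ a ∈ M, ∀ s, x a s ∈ E := by
  unfold GR
  rw [iSup₂_le_iff]
  exact forall₂_congr fun a _ => XR_le

theorem TR_le {h : Rt C → Kˣ → A} {M : Set (Rt C)} {E : Subgroup A} :
    TR h M ≤ E ↔ ∀ a ∈ M, ∀ c, h a c ∈ E := by
  unfold TR
  rw [Subgroup.closure_le]
  constructor
  · exact fun h a ha c => h ⟨a, ha, c, rfl⟩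
  · rintro h _ ⟨a, ha, c, rfl⟩
    exact h a ha c

theorem mem_sup_comm {F Z : Subgroup A} (hc : ∀ f ∈ F, ∀ z ∈ Z, f * z = z * f) {g : A}
    (hg : g ∈ F ⊔ Z) : ∃ f ∈ F, ∃ z ∈ Z, g = f * z := by
  have h1 : F ⊔ Z ≤
      { carrier := {g | ∃ f ∈ F, ∃ z ∈ Z, g = f * z}
        one_mem' := ⟨1, F.one_mem, 1, Z.one_mem, (mul_one 1).symm⟩
        mul_mem' := by
          rintro _ _ ⟨f, hf, z, hz, rfl⟩ ⟨f', hf', z', hz', rfl⟩
          refine ⟨f * f', F.mul_mem hf hf', z * z', Z.mul_mem hz hz', ?_⟩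
          have := hc f' hf' z hz
          calc f * z * (f' * z') = f * (z * f') * z' := by group
            _ = f * (f' * z) * z' := by rw [this]
            _ = f * f' * (z * z') := by group
        inv_mem' := by
          rintro _ ⟨f, hf, z, hz, rfl⟩
          refine ⟨f⁻¹, F.inv_mem hf, z⁻¹, Z.inv_mem hz, ?_⟩
          rw [mul_inv_rev, ← hc f⁻¹ (F.inv_mem hf) z⁻¹ (Z.inv_mem hz)] } := by
    refine sup_le ?_ ?_
    · intro f hf
      exact ⟨f, hf, 1, Z.one_mem, (mul_one f).symm⟩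
    · intro z hz
      exact ⟨1, F.one_mem, z, hz, (one_mul z).symm⟩
  exact h1 hg

/-- the standard description for the subgroup of `M` -/
def SubStdR (x : Rt C → K → A) (h : Rt C → Kˣ → A) (M : Set (Rt C)) : Prop :=
  ∀ F : Subgroup A, TR h M ≤ F → F ≤ GR x M →
    ∃! S : Set (Rt C), S ⊆ M ∧ ClosedRt S ∧ GSt (TR h M) (XR x) S ≤ F ∧
      ∀ f ∈ F, ∀ y, y ∈ GSt (TR h M) (XR x) S ↔ f * y * f⁻¹ ∈ GSt (TR h M) (XR x) S

theorem sub_std {x : Rt C → K → A} {h : Rt C → Kˣ → A} (R : RS C K x h)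
    (hstd : ∀ F : Subgroup A, TR h Set.univ ≤ F → F ≤ GR x Set.univ →
      StdDesc (TR h Set.univ) (XR x) F)
    (M D : Set (Rt C)) (hMD : ∀ a, a ∈ M ↔ ∀ d ∈ D, ip C d.1 a.1 = 0)
    (hT : ∀ a c, h a c ∈ TR h M ⊔ TR h D)
    (hint : ∀ t ∈ TR h D, (∀ d ∈ D, ∀ s, t * x d s = x d s * t) → t = 1)
    (hq : ∀ a d : Rt C, (∀ c : Kˣ, ((c ^ ip C d.1 a.1 : Kˣ) : K) = 1) → ip C d.1 a.1 = 0) :
    SubStdR x h M := by
  -- `Z` centralises `GR x M`
  have hng : ∀ a ∈ M, ng a ∈ M := by
    intro a ha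
    rw [hMD] at ha ⊢
    intro d hd
    rw [ng_val, ip_neg_right, ha d hd, neg_zero]
  have hZG : ∀ g ∈ GR x M, ∀ z ∈ TR h D, g * z = z * g := by
    intro g hg z hz
    have h1 : GR x M ≤ Subgroup.centralizer (TR h D : Set A) := by
      rw [GR_le]
      intro a ha s
      rw [Subgroup.mem_centralizer_iff]
      have h2 : TR h D ≤ Subgroup.centralizer {x a s} := by
        rw [TR_le]
        intro d hd c
        rw [Subgroup.mem_centralizer_iff]
        rintro _ rfl
        have h3 := R.conj d a c s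
        rw [(hMD a).1 ha d hd, zpow_zero, Units.val_one, one_mul] at h3
        rw [← mul_inv_eq_iff_eq_mul.1 h3]
      intro z hz
      exact (Subgroup.mem_centralizer_iff.1 (h2 hz) _ rfl).symm
    exact (Subgroup.mem_centralizer_iff.1 (h1 hg) z hz).symm
  have hZZ : ∀ z ∈ TR h D, ∀ z' ∈ TR h D, z * z' = z' * z := by
    have h1 : ∀ M' : Set (Rt C), TR h M' ≤ Subgroup.centralizer (TR h M' : Set A) := by
      intro M'
      rw [TR_le]
      intro a _ c
      rw [Subgroup.mem_centralizer_iff]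
      have h2 : TR h M' ≤ Subgroup.centralizer {h a c} := by
        rw [TR_le]
        intro d _ c'
        rw [Subgroup.mem_centralizer_iff]
        rintro _ rfl
        exact R.hcomm a d c c'
      intro z hz
      exact (Subgroup.mem_centralizer_iff.1 (h2 hz) _ rfl).symm
    intro z hz z' hz'
    exact (Subgroup.mem_centralizer_iff.1 (h1 D hz) z' hz').symm
  have hTM : TR h M ≤ GR x M := by
    rw [TR_le]
    intro a ha c
    exact R.hmem a c _ (GR_le.1 le_rfl a ha) (GR_le.1 le_rfl _ (hng a ha))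
  have hTG : TR h Set.univ ≤ GR x Set.univ := by
    rw [TR_le]
    intro a ha c
    exact R.hmem a c _ (GR_le.1 le_rfl a ha) (GR_le.1 le_rfl _ (Set.mem_univ _))
  have hTD : TR h D ≤ TR h Set.univ := by
    rw [TR_le]
    exact fun a _ c => TR_le.1 le_rfl a (Set.mem_univ _) c
  have hTM' : TR h M ≤ TR h Set.univ := by
    rw [TR_le]
    exact fun a _ c => TR_le.1 le_rfl a (Set.mem_univ _) c
  have hTeq : TR h Set.univ = TR h M ⊔ TR h D := by
    apply le_antisymm
    · rw [TR_le]
      exact fun a _ c => hT a c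
    · exact sup_le hTM' hTD
  -- trivial intersection
  have hone : ∀ z ∈ TR h D, z ∈ GR x M → z = 1 := by
    intro z hz hzG
    refine hint z hz fun d hd s => ?_
    have h1 : GR x M ≤ Subgroup.centralizer {x d s} := by
      rw [GR_le]
      intro a ha u
      rw [Subgroup.mem_centralizer_iff]
      rintro _ rfl
      exact R.comm d a ((hMD a).1 ha d hd) s u
    exact (Subgroup.mem_centralizer_iff.1 (h1 hzG) _ rfl).symm
  have hcut : ∀ E : Subgroup A, E ≤ GR x M → ∀ g, g ∈ GR x M → g ∈ E ⊔ TR h D → g ∈ E := by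
    intro E hE g hg hgE
    obtain ⟨f, hf, z, hz, rfl⟩ :=
      mem_sup_comm (fun f hf z hz => hZG f (hE hf) z hz) hgE
    have h1 : z ∈ GR x M := by
      have h2 := (GR x M).mul_mem ((GR x M).inv_mem (hE hf)) hg
      rwa [inv_mul_cancel_left] at h2
    rw [hone z hz h1, mul_one]
    exact hf
  intro F hF1 hF2
  have hFZ : ∀ f ∈ F, ∀ z ∈ TR h D, f * z = z * f := fun f hf z hz => hZG f (hF2 hf) z hz
  have hF' : StdDesc (TR h Set.univ) (XR x) (F ⊔ TR h D) := by
    refine hstd _ ?_ ?_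
    · rw [hTeq]
      exact sup_le_sup_right hF1 _
    · refine sup_le (hF2.trans ?_) (hTD.trans hTG)
      rw [GR_le]
      exact fun a _ s => GR_le.1 le_rfl a (Set.mem_univ _) s
  have hGSt : ∀ S : Set (Rt C), GSt (TR h Set.univ) (XR x) S =
      GSt (TR h M) (XR x) S ⊔ TR h D := by
    intro S
    unfold GSt
    rw [hTeq, sup_assoc, sup_comm (TR h D), ← sup_assoc]
  have hB : ∀ S : Set (Rt C), S ⊆ M → GSt (TR h M) (XR x) S ≤ GR x M := by
    intro S hS
    unfold GSt
    refine sup_le hTM (iSup₂_le fun a ha => XR_le.2 (GR_le.1 le_rfl a (hS ha)))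
  -- closed sets of the big group lie in `M`
  have hSM : ∀ S : Set (Rt C), GSt (TR h Set.univ) (XR x) S ≤ F ⊔ TR h D → S ⊆ M := by
    intro S hS a ha
    rw [hMD]
    intro d hd
    refine hq a d fun c => ?_
    have h1 : x a 1 ∈ F ⊔ TR h D := by
      apply hS
      have h2 : XR x a ≤ GSt (TR h Set.univ) (XR x) S := by
        unfold GSt
        refine le_trans ?_ le_sup_right
        exact le_iSup₂ (f := fun (a : Rt C) (_ : a ∈ S) => XR x a) a ha
      exact XR_le.1 h2 1
    obtain ⟨f, hf, z, hz, hfz⟩ := mem_sup_comm hFZ h1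
    have hh : h d c ∈ TR h D := TR_le.1 le_rfl d hd c
    have h3 : h d c * x a 1 * (h d c)⁻¹ = x a 1 := by
      rw [hfz, mul_inv_eq_iff_eq_mul]
      calc h d c * (f * z) = h d c * f * z := by group
        _ = f * h d c * z := by rw [hFZ f hf _ hh]
        _ = f * (h d c * z) := by group
        _ = f * (z * h d c) := by rw [hZZ _ hh z hz]
        _ = f * z * h d c := by group
    rw [R.conj, mul_one] at h3
    exact R.inj a _ _ h3
  have key : ∀ S : Set (Rt C),
      (S ⊆ M ∧ ClosedRt S ∧ GSt (TR h M) (XR x) S ≤ F ∧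
        ∀ f ∈ F, ∀ y, y ∈ GSt (TR h M) (XR x) S ↔ f * y * f⁻¹ ∈ GSt (TR h M) (XR x) S) ↔
      (ClosedRt S ∧ GSt (TR h Set.univ) (XR x) S ≤ F ⊔ TR h D ∧
        ∀ f ∈ F ⊔ TR h D, ∀ y, y ∈ GSt (TR h Set.univ) (XR x) S ↔
          f * y * f⁻¹ ∈ GSt (TR h Set.univ) (XR x) S) := by
    intro S
    constructor
    · rintro ⟨h1, h2, h3, h4⟩
      have hcB : ∀ b ∈ GSt (TR h M) (XR x) S, ∀ z ∈ TR h D, b * z = z * b :=
        fun b hb z hz => hZG b (hB S h1 hb) z hz
      refine ⟨h2, by rw [hGSt]; exact sup_le_sup_right h3 _, ?_⟩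
      have step : ∀ g ∈ F ⊔ TR h D, ∀ y ∈ GSt (TR h Set.univ) (XR x) S,
          g * y * g⁻¹ ∈ GSt (TR h Set.univ) (XR x) S := by
        intro g hg y hy
        rw [hGSt] at hy ⊢
        obtain ⟨f, hf, z, hz, rfl⟩ := mem_sup_comm hFZ hg
        obtain ⟨b, hb, z', hz', rfl⟩ := mem_sup_comm hcB hy
        have e : f * z * (b * z') * (f * z)⁻¹ = (f * b * f⁻¹) * z' := by
          calc f * z * (b * z') * (f * z)⁻¹ = f * (z * b) * z' * z⁻¹ * f⁻¹ := by group
            _ = f * (b * z) * z' * z⁻¹ * f⁻¹ := by rw [hcB b hb z hz]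
            _ = f * b * (z * z') * z⁻¹ * f⁻¹ := by group
            _ = f * b * (z' * z) * z⁻¹ * f⁻¹ := by rw [hZZ z hz z' hz']
            _ = f * b * (z' * f⁻¹) := by group
            _ = f * b * (f⁻¹ * z') := by rw [hFZ f⁻¹ (F.inv_mem hf) z' hz']
            _ = (f * b * f⁻¹) * z' := by group
        rw [e]
        exact Subgroup.mul_mem _ (le_sup_left (a := GSt (TR h M) (XR x) S) ((h4 f hf b).1 hb))
          (le_sup_right (b := TR h D) hz')
      intro g hg y
      constructor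
      · exact step g hg y
      · intro hy
        have h5 := step g⁻¹ (Subgroup.inv_mem _ hg) _ hy
        have e : g⁻¹ * (g * y * g⁻¹) * g⁻¹⁻¹ = y := by group
        rwa [e] at h5
    · rintro ⟨h1, h2, h3⟩
      have hS := hSM S h2
      have hBS := hB S hS
      have hle : GSt (TR h M) (XR x) S ≤ GSt (TR h Set.univ) (XR x) S := by
        rw [hGSt]
        exact le_sup_left
      refine ⟨hS, h1, ?_, ?_⟩
      · intro b hb
        exact hcut F hF2 b (hBS hb) (h2 (hle hb))
      · intro f hf y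
        have hfG : f ∈ GR x M := hF2 hf
        have hf' : f ∈ F ⊔ TR h D := le_sup_left (a := F) hf
        constructor
        · intro hy
          have h4 := (h3 f hf' y).1 (hle hy)
          rw [hGSt] at h4
          exact hcut _ hBS _ ((GR x M).mul_mem ((GR x M).mul_mem hfG (hBS hy))
            ((GR x M).inv_mem hfG)) h4
        · intro hy
          have h4 := (h3 f hf' y).2 (hle hy)
          rw [hGSt] at h4
          refine hcut _ hBS _ ?_ h4
          have h5 := (GR x M).mul_mem ((GR x M).mul_mem ((GR x M).inv_mem hfG) (hBS hy)) hfG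
          have e : f⁻¹ * (f * y * f⁻¹) * f = y := by group
          rwa [e] at h5
  unfold StdDesc at hF'
  simp only [key]
  exact hF'

end Pool.Agent.H33.EF
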