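import Pool.Agent.H33.EF.Sub
import Pool.Agent.H33.EF.Adj2
import Pool.Agent.H33.EF.Hyp88

/-!
# The groups of type E_7 over 8 elements and E_6 over 9 elements inside the group of type E_8

`M` is the set of the roots of `E_8` which are combinations of the first 7 (first 6) simple roots.
-/

namespace Pool.Agent.H33.EF

open Pool.Agent.H33.EL

variable {n : ℕ}

section
variable {C : Matrix (Fin n) (Fin n) ℤ} {K : Type} [Field K]

/-- `h_y(c)` as a permutation -/
def hP (C : Matrix (Fin n) (Fin n) ℤ) (y : Fin n → ℤ) (c : Kˣ) : Equiv.Perm (LL C K) :=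
  EL.toP C K (hd C y c)

variable [Fintype (Rt C)]

theorem hP_add (y z : Fin n → ℤ) (c : Kˣ) :
    (hP C (y + z) c : Equiv.Perm (LL C K)) = hP C y c * hP C z c := by
  unfold hP
  rw [hd_add, map_mul]

theorem hP_smul (k : ℤ) (z : Fin n → ℤ) (c : Kˣ) :
    (hP C (k • z) c : Equiv.Perm (LL C K)) = hP C z (c ^ k) := by
  unfold hP
  congr 1
  refine LinearEquiv.ext fun x => Prod.ext rfl (funext fun r => ?_)
  show ((c ^ (ip C (k • z) r.1) : Kˣ) : K) * x.2 r = (((c ^ k) ^ (ip C z r.1) : Kˣ) : K) * x.2 r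
  rw [← zpow_mul]
  have h1 : ip C (k • z) r.1 = k * ip C z r.1 := by
    simp only [ip, Pi.smul_apply, smul_eq_mul, Finset.mul_sum]
    exact Finset.sum_congr rfl fun i _ => Finset.sum_congr rfl fun j _ => by ring
  rw [h1]

theorem hP_mul (y : Fin n → ℤ) (c d : Kˣ) :
    (hP C y (c * d) : Equiv.Perm (LL C K)) = hP C y c * hP C y d := by
  unfold hP
  rw [hd_mul_unit, map_mul]

theorem hP_one (y : Fin n → ℤ) : (hP C y (1 : Kˣ) : Equiv.Perm (LL C K)) = 1 := by
  have h := hP_mul (C := C) (K := K) y 1 1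
  rw [mul_one] at h
  exact (mul_eq_left.1 h.symm)

theorem hP_inv (y : Fin n → ℤ) (c : Kˣ) :
    (hP C y c : Equiv.Perm (LL C K))⁻¹ = hP C y c⁻¹ := by
  rw [inv_eq_iff_mul_eq_one, ← hP_mul, mul_inv_cancel, hP_one]

theorem hP_zero (c : Kˣ) : (hP C 0 c : Equiv.Perm (LL C K)) = 1 := by
  have h := hP_add (C := C) (K := K) 0 0 c
  rw [add_zero] at h
  exact (mul_eq_left.1 h.symm)

theorem hP_comm (y z : Fin n → ℤ) (c d : Kˣ) :
    (hP C y c : Equiv.Perm (LL C K)) * hP C z d = hP C z d * hP C y c := by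
  unfold hP
  rw [← map_mul, ← map_mul]
  congr 1
  refine LinearEquiv.ext fun x => Prod.ext rfl (funext fun r => ?_)
  show ((c ^ (ip C y r.1) : Kˣ) : K) * (((d ^ (ip C z r.1) : Kˣ) : K) * x.2 r) =
    ((d ^ (ip C z r.1) : Kˣ) : K) * (((c ^ (ip C y r.1) : Kˣ) : K) * x.2 r)
  ring

/-- toral elements of combinations of roots -/
theorem hP_span (P : Subgroup (Equiv.Perm (LL C K))) (y : Fin n → ℤ)
    (hP' : ∀ i, y i ≠ 0 → ∀ c : Kˣ, hP C (Pi.single i 1) c ∈ P) (c : Kˣ) : hP C y c ∈ P := by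
  classical
  have key : ∀ s : Finset (Fin n), hP C (∑ i ∈ s, y i • (Pi.single i 1 : Fin n → ℤ)) c ∈ P := by
    intro s
    induction s using Finset.induction_on with
    | empty => rw [Finset.sum_empty, hP_zero]; exact P.one_mem
    | insert i s hi ih =>
      rw [Finset.sum_insert hi, hP_add]
      refine P.mul_mem ?_ ih
      by_cases h : y i = 0
      · rw [h, zero_smul, hP_zero]; exact P.one_mem
      · rw [hP_smul]; exact hP' i h _
  have h1 : y = ∑ i, y i • (Pi.single i 1 : Fin n → ℤ) := by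
    funext j
    rw [Finset.sum_apply, Finset.sum_eq_single j]
    · rw [Pi.smul_apply, Pi.single_eq_same, smul_eq_mul, mul_one]
    · intro i _ hij
      rw [Pi.smul_apply, Pi.single_eq_of_ne (Ne.symm hij), smul_zero]
    · intro h
      exact absurd (Finset.mem_univ j) h
  rw [h1]
  exact key _

end

variable {C : Matrix (Fin n) (Fin n) ℤ} {K : Type} [Field K] [Fintype (Rt C)]

theorem RS_EL (H : EL.Hyp C K) :
    RS C K (fun a s => EL.toP C K (EL.xr a s)) (fun a c => hP C a.1 c) where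
  conj d a c s := by
    unfold hP
    rw [← map_mul, ← map_inv, ← map_mul, EL.TT_conj_xr H (EL.hd_mem_TT H _ _), EL.wt_hd]
  comm a d had s u := by
    rw [← map_mul, ← map_mul, EL.xr_comm H had.ge]
  inj a s s' h := EL.xr_inj H a (EL.toP_inj h)
  hcomm a d c c' := hP_comm _ _ _ _
  hmem a c E h1 h2 := by
    unfold hP
    rw [EL.hd_eq H a c]
    simp only [map_mul, map_inv]
    exact mul_mem (mul_mem (mul_mem (h1 _) (h2 _)) (h1 _))
      (inv_mem (mul_mem (mul_mem (h1 _) (h2 _)) (h1 _)))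

theorem RS_EQ (H : EQ.Hyp C K) :
    RS C K (fun a s => EL.toP C K (EQ.xr a s)) (fun a c => hP C a.1 c) where
  conj d a c s := by
    unfold hP
    rw [← map_mul, ← map_inv, ← map_mul, EQ.TT_conj_xr H (EQ.hd_mem_TT H _ _), EQ.wt_hd]
  comm a d had s u := by
    rw [← map_mul, ← map_mul, EQ.xr_comm H had.ge]
  inj a s s' h := EQ.xr_inj H a (EL.toP_inj h)
  hcomm a d c c' := hP_comm _ _ _ _
  hmem a c E h1 h2 := by
    unfold hP
    rw [EQ.hd_eq H a c]
    simp only [map_mul, map_inv]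
    exact mul_mem (mul_mem (mul_mem (h1 _) (h2 _)) (h1 _))
      (inv_mem (mul_mem (mul_mem (h1 _) (h2 _)) (h1 _)))

theorem XR_eq {x : Rt C → K → Equiv.Perm (LL C K)} (hx : ∀ a s v, x a s v = xf a s v) :
    XR x = fun a => XP K a := by
  funext a
  unfold XR XP
  congr 1
  ext g
  constructor
  · rintro ⟨s, rfl⟩
    exact ⟨s, hx a s⟩
  · rintro ⟨s, hs⟩
    exact ⟨s, Equiv.ext fun v => by rw [hs, hx]⟩

theorem TR_eq (M : Set (Rt C)) : TR (fun a c => hP C a.1 c) M = TPM C K M := by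
  unfold TR TPM
  congr 1
  ext g
  constructor
  · rintro ⟨a, ha, c, rfl⟩
    refine ⟨a, ha, (c : K), c.ne_zero, fun x => ?_⟩
    show hP C a.1 c x = tf a (c : K) x
    unfold hP
    rw [EL.toP_apply]
    refine Prod.ext rfl (funext fun b => ?_)
    simp [tf, hd]
  · rintro ⟨a, ha, c, hc, hg⟩
    refine ⟨a, ha, Units.mk0 c hc, Equiv.ext fun x => ?_⟩
    rw [hg]
    show tf a c x = hP C a.1 (Units.mk0 c hc) x
    unfold hP
    rw [EL.toP_apply]
    refine Prod.ext rfl (funext fun b => ?_)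
    simp [tf, hd]

/-- the statement for subgroups of `GP C K` itself -/
theorem perm_std (h : AllStd C K) (F : Subgroup (Equiv.Perm (LL C K))) (h1 : TP C K ≤ F)
    (h2 : F ≤ GP C K) : StdDesc (TP C K) (fun a : Rt C => XP K a) F := by
  obtain ⟨h3, h4⟩ := h
  have hX : ∀ a, XP K a ≤ GP C K := fun a => le_iSup (fun a : Rt C => XP K a) a
  have hmap : ∀ D : Subgroup (Equiv.Perm (LL C K)), D ≤ GP C K →
      (D.subgroupOf (GP C K)).map (GP C K).subtype = D := by
    intro D hD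
    rw [Subgroup.subgroupOf_map_subtype, inf_eq_left]
    exact hD
  have h5 := h4 (GP C K) (GP C K).subtype (Subgroup.range_subtype _)
    ((TP C K).subgroupOf (GP C K)) (fun a => (XP K a).subgroupOf (GP C K)) (hmap _ h3)
    (by rw [Subgroup.ker_subtype]; exact bot_le) (fun a => hmap _ (hX a))
    (F.subgroupOf (GP C K)) (Subgroup.comap_mono h1)
  have h6 := stdDesc_map (GP C K).subtype (GP C K).subtype_injective h5
  rw [hmap _ h3, hmap _ h2] at h6
  have h7 : (fun a => ((XP K a).subgroupOf (GP C K)).map (GP C K).subtype) =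
      fun a : Rt C => XP K a := funext fun a => hmap _ (hX a)
  rw [h7] at h6
  exact h6

theorem subStd_of {x : Rt C → K → Equiv.Perm (LL C K)} (hx : ∀ a s v, x a s v = xf a s v)
    (R : RS C K x (fun a c => hP C a.1 c)) (h : AllStd C K)
    (M D : Set (Rt C)) (hMD : ∀ a, a ∈ M ↔ ∀ d ∈ D, ip C d.1 a.1 = 0)
    (hT : ∀ (a : Rt C) (c : Kˣ), (hP C a.1 c : Equiv.Perm (LL C K)) ∈
      TR (fun a c => hP C a.1 c) M ⊔ TR (fun a c => hP C a.1 c) D)
    (hint : ∀ t ∈ TR (fun a c => hP C a.1 c) D, (∀ d ∈ D, ∀ s, t * x d s = x d s * t) → t = 1)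
    (hq : ∀ a d : Rt C, (∀ c : Kˣ, ((c ^ ip C d.1 a.1 : Kˣ) : K) = 1) → ip C d.1 a.1 = 0) :
    SubStd C K M := by
  have hTP : TR (fun a c => hP C a.1 c) (Set.univ : Set (Rt C)) = TP C K := by
    rw [TR_eq]
    unfold TPM TP
    congr 1
    ext g
    simp
  have hGP : GR x (Set.univ : Set (Rt C)) = GP C K := by
    unfold GR GP
    rw [XR_eq hx]
    simp
  have hG : ∀ M : Set (Rt C), GR x M = GPM C K M := by
    intro M
    unfold GR GPM
    rw [XR_eq hx]
  have h1 := sub_std R (by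
    rw [hTP, hGP, XR_eq hx]
    exact fun F h2 h3 => perm_std h F h2 h3) M D hMD hT hint hq
  have h2 : TPM C K M ≤ GPM C K M := by
    rw [← TR_eq, ← hG, TR_le]
    intro a ha c
    refine R.hmem a c _ (GR_le.1 le_rfl a ha) (GR_le.1 le_rfl _ ?_)
    rw [hMD] at ha ⊢
    intro d hd
    rw [ng_val, ip_neg_right, ha d hd, neg_zero]
  refine ⟨h2, ?_⟩
  unfold SubStdR at h1
  rw [TR_eq, XR_eq hx, hG] at h1
  exact h1

end Pool.Agent.H33.EF
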