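import Pool.Agent.H33.EF.Sub2
import Pool.Agent.H33.EL.Hyp8

/-!
# `E_7` over 8 elements and `E_6` over 9 elements inside `E_8`
-/

namespace Pool.Agent.H33.EF

open Pool.Agent.H33.EL

/-- the highest root of `E_8` -/
def hi8 : Fin 8 → ℤ := ![2, 3, 4, 6, 5, 4, 3, 2]

theorem hi8_ip (b : Fin 8 → ℤ) : ip CartanMatrix.E₈ hi8 b = b 7 := by
  simp [ip, hi8, CartanMatrix.E₈, Fin.sum_univ_succ]
  ring

theorem al8_ip (b : Fin 8 → ℤ) : ip CartanMatrix.E₈ (Pi.single 7 1) b = 2 * b 7 - b 6 := by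
  simp [ip, CartanMatrix.E₈, Fin.sum_univ_succ, Pi.single_apply]
  ring

theorem ip_single {n : ℕ} (C : Matrix (Fin n) (Fin n) ℤ) (i : Fin n) :
    ip C (Pi.single i 1) (Pi.single i 1) = C i i := by
  unfold ip
  rw [Finset.sum_eq_single i]
  · rw [Finset.sum_eq_single i]
    · rw [Pi.single_eq_same, one_mul, mul_one]
    · intro j _ hj
      rw [Pi.single_eq_of_ne hj, mul_zero]
    · intro h
      exact absurd (Finset.mem_univ i) h
  · intro j _ hj
    refine Finset.sum_eq_zero fun k _ => ?_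
    rw [Pi.single_eq_of_ne hj, zero_mul, zero_mul]
  · intro h
    exact absurd (Finset.mem_univ i) h

/-- the highest root -/
def hr8 : Rt CartanMatrix.E₈ := ⟨hi8, by rw [hi8_ip]; rfl⟩

/-- the simple roots -/
def ar8 (i : Fin 8) : Rt CartanMatrix.E₈ :=
  ⟨Pi.single i 1, by rw [ip_single]; exact CartanMatrix.E₈_diag i⟩

theorem ord_gen {K : Type} [Field K] [Finite K] (h : 3 ≤ Nat.card Kˣ) {k : ℤ} (h1 : -2 ≤ k)
    (h2 : k ≤ 2) (hc : ∀ c : Kˣ, ((c ^ k : Kˣ) : K) = 1) : k = 0 := by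
  obtain ⟨c, hc'⟩ := IsCyclic.exists_generator (α := Kˣ)
  have h3 := orderOf_eq_card_of_forall_mem_zpowers hc'
  have h4 : c ^ k = 1 := Units.ext (hc c)
  have h5 := orderOf_dvd_iff_zpow_eq_one.2 h4
  rw [h3] at h5
  by_contra hk
  have h6 := Int.le_of_dvd (abs_pos.2 hk) ((dvd_abs _ _).2 h5)
  have h7 : |k| ≤ 2 := abs_le.2 ⟨h1, h2⟩
  omega

section
variable {n : ℕ} {C : Matrix (Fin n) (Fin n) ℤ} {K : Type} [Field K] [Fintype (Rt C)]

theorem TR_one {d : Rt C} {t : Equiv.Perm (LL C K)}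
    (ht : t ∈ TR (fun (a : Rt C) (c : Kˣ) => hP C a.1 c) {d}) : ∃ c : Kˣ, t = hP C d.1 c := by
  unfold TR at ht
  induction ht using Subgroup.closure_induction with
  | mem g hg =>
    obtain ⟨a, ha, c, rfl⟩ := hg
    rw [Set.mem_singleton_iff] at ha
    exact ⟨c, by rw [ha]⟩
  | one => exact ⟨1, hP_one _ |>.symm⟩
  | mul g g' _ _ h1 h2 =>
    obtain ⟨c, rfl⟩ := h1
    obtain ⟨c', rfl⟩ := h2
    exact ⟨c * c', (hP_mul _ _ _).symm⟩
  | inv g _ h1 =>
    obtain ⟨c, rfl⟩ := h1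
    exact ⟨c⁻¹, hP_inv _ _⟩

theorem TR_two {d d' : Rt C} {t : Equiv.Perm (LL C K)}
    (ht : t ∈ TR (fun (a : Rt C) (c : Kˣ) => hP C a.1 c) {d, d'}) :
    ∃ c c' : Kˣ, t = hP C d.1 c * hP C d'.1 c' := by
  unfold TR at ht
  induction ht using Subgroup.closure_induction with
  | mem g hg =>
    obtain ⟨a, ha, c, rfl⟩ := hg
    rw [Set.mem_insert_iff, Set.mem_singleton_iff] at ha
    rcases ha with rfl | rfl
    · exact ⟨c, 1, by rw [hP_one, mul_one]⟩
    · exact ⟨1, c, by rw [hP_one, one_mul]⟩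
  | one => exact ⟨1, 1, by rw [hP_one, hP_one, one_mul]⟩
  | mul g g' _ _ h1 h2 =>
    obtain ⟨c, e, rfl⟩ := h1
    obtain ⟨c', e', rfl⟩ := h2
    refine ⟨c * c', e * e', ?_⟩
    rw [hP_mul, hP_mul]
    calc hP C d.1 c * hP C d'.1 e * (hP C d.1 c' * hP C d'.1 e')
        = hP C d.1 c * (hP C d'.1 e * hP C d.1 c') * hP C d'.1 e' := by group
      _ = hP C d.1 c * (hP C d.1 c' * hP C d'.1 e) * hP C d'.1 e' := by
          rw [hP_comm d'.1 d.1 e c']
      _ = hP C d.1 c * hP C d.1 c' * (hP C d'.1 e * hP C d'.1 e') := by group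
  | inv g _ h1 =>
    obtain ⟨c, e, rfl⟩ := h1
    exact ⟨c⁻¹, e⁻¹, by rw [mul_inv_rev, hP_inv, hP_inv, hP_comm]⟩

theorem TR_mem {M : Set (Rt C)} {a : Rt C} (ha : a ∈ M) (c : Kˣ) :
    hP C a.1 c ∈ TR (fun (a : Rt C) (c : Kˣ) => hP C a.1 c) M :=
  Subgroup.subset_closure ⟨a, ha, c, rfl⟩

end

variable {K : Type} [Field K]

theorem sub7_8 (hK : Nat.card K = 8)
    (h : AllStd CartanMatrix.E₈ K) : SubStd CartanMatrix.E₈ K M7 := by
  have H := hyp88 K hK
  have hfin : Finite K := Nat.finite_of_card_ne_zero (by rw [hK]; norm_num)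
  have hcu : Nat.card Kˣ = 7 := by rw [Nat.card_units, hK]
  have h7 : ∀ t : Kˣ, t ^ 7 = 1 := by
    intro t
    have h := pow_card_eq_one' (x := t)
    rwa [hcu] at h
  have R := RS_EQ H
  refine subStd_of (x := fun a s => EL.toP CartanMatrix.E₈ K (EQ.xr a s))
    (fun a s v => (xf_eq_EQ H a s v).symm) R h M7 {hr8} ?_ ?_ ?_ ?_
  · intro a
    constructor
    · rintro h1 d hd
      rw [Set.mem_singleton_iff] at hd
      rw [hd]
      exact (hi8_ip a.1).trans h1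
    · intro h1
      have h2 := h1 hr8 (Set.mem_singleton hr8)
      exact (hi8_ip a.1).symm.trans h2
  · intro a c
    have hc : c = (c ^ 4) ^ (2 : ℤ) := by
      have e : (c ^ 4) ^ (2 : ℤ) = c ^ 7 * c := by
        rw [zpow_ofNat, ← pow_mul, ← pow_succ]
      rw [e, h7, one_mul]
    rw [hc, ← hP_smul]
    have e : (2 : ℤ) • a.1 = ((2 : ℤ) • a.1 - a.1 7 • hi8) + a.1 7 • hi8 := by
      rw [sub_add_cancel]
    rw [e, hP_add, hP_smul]
    refine mul_mem ?_ ?_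
    · refine (le_sup_left : _ ≤ TR (fun (a : Rt CartanMatrix.E₈) (c : Kˣ) => hP _ a.1 c) M7 ⊔
        TR (fun (a : Rt CartanMatrix.E₈) (c : Kˣ) => hP _ a.1 c) {hr8}) ?_
      refine hP_span _ _ (fun i hi c' => ?_) _
      refine TR_mem (a := ar8 i) ?_ c'
      show (Pi.single i 1 : Fin 8 → ℤ) 7 = 0
      refine Pi.single_eq_of_ne ?_ _
      rintro rfl
      apply hi
      show (2 : ℤ) • a.1 7 - a.1 7 • hi8 7 = 0
      show 2 * a.1 7 - a.1 7 * 2 = 0
      ring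
    · refine (le_sup_right : _ ≤ TR (fun (a : Rt CartanMatrix.E₈) (c : Kˣ) => hP _ a.1 c) M7 ⊔
        TR (fun (a : Rt CartanMatrix.E₈) (c : Kˣ) => hP _ a.1 c) {hr8}) ?_
      exact TR_mem (C := CartanMatrix.E₈) (K := K) (Set.mem_singleton hr8) _
  · intro t ht hcm
    obtain ⟨c, rfl⟩ := TR_one ht
    have h1 := R.conj hr8 hr8 c 1
    have h2 : hP CartanMatrix.E₈ hr8.1 c * EL.toP CartanMatrix.E₈ K (EQ.xr hr8 1) *
        (hP CartanMatrix.E₈ hr8.1 c)⁻¹ = EL.toP CartanMatrix.E₈ K (EQ.xr hr8 1) := by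
      rw [hcm hr8 (Set.mem_singleton hr8) 1, mul_inv_cancel_right]
    have h3 := R.inj _ _ _ (h1.symm.trans h2)
    have h4 : ip CartanMatrix.E₈ hr8.1 hr8.1 = 2 := hr8.2
    rw [h4, mul_one] at h3
    have h5 : c ^ (2 : ℤ) = 1 := Units.ext h3
    have h6 : c = 1 := by
      have e : c = c ^ 7 * ((c ^ (2 : ℤ)) ^ 3)⁻¹ := by
        rw [zpow_ofNat, ← pow_mul, pow_succ c 6]
        group
      rw [e, h7, h5, one_pow, inv_one, one_mul]
    rw [h6, hP_one]
  · intro a d hc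
    exact ord_gen (by rw [hcu]; norm_num) (EQ.neg_two_le_ip H d a) (EQ.ip_le_two H d a) hc

theorem sub6_9 (hK : Nat.card K = 9)
    (h : AllStd CartanMatrix.E₈ K) : SubStd CartanMatrix.E₈ K M6 := by
  have H := EL.hyp8 K (Or.inr (Or.inl hK))
  have hfin : Finite K := Nat.finite_of_card_ne_zero (by rw [hK]; norm_num)
  have hcu : Nat.card Kˣ = 8 := by rw [Nat.card_units, hK]
  have h8 : ∀ t : Kˣ, t ^ 8 = 1 := by
    intro t
    have h := pow_card_eq_one' (x := t)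
    rwa [hcu] at h
  have R := RS_EL H
  refine subStd_of (x := fun a s => EL.toP CartanMatrix.E₈ K (EL.xr a s))
    (fun a s v => ((xf_eq_EL H a s v).trans (EL.xf_eq H a s v)).symm) R h M6 {hr8, ar8 7}
    ?_ ?_ ?_ ?_
  · intro a
    constructor
    · rintro ⟨h0, h1⟩ d hd
      rw [Set.mem_insert_iff, Set.mem_singleton_iff] at hd
      rcases hd with rfl | rfl
      · exact (hi8_ip a.1).trans h1
      · refine (al8_ip a.1).trans ?_
        rw [h0, h1]
        rfl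
    · intro h1
      have h2 := h1 hr8 (Set.mem_insert _ _)
      have h3 := h1 (ar8 7) (Set.mem_insert_of_mem _ (Set.mem_singleton _))
      have h2' : a.1 7 = 0 := (hi8_ip a.1).symm.trans h2
      have h3' : 2 * a.1 7 - a.1 6 = 0 := (al8_ip a.1).symm.trans h3
      exact ⟨by omega, h2'⟩
  · intro a c
    have hc : c = (c ^ 3) ^ (3 : ℤ) := by
      have e : (c ^ 3) ^ (3 : ℤ) = c ^ 8 * c := by
        rw [zpow_ofNat, ← pow_mul, ← pow_succ]
      rw [e, h8, one_mul]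
    rw [hc, ← hP_smul]
    have e : (3 : ℤ) • a.1 = ((3 : ℤ) • a.1 - a.1 6 • hi8) + a.1 6 • hi8 := by
      rw [sub_add_cancel]
    rw [e, hP_add, hP_smul]
    refine mul_mem ?_ ?_
    · refine hP_span _ _ (fun i hi c' => ?_) _
      by_cases h7 : i = 7
      · subst h7
        refine (le_sup_right : _ ≤ TR (fun (a : Rt CartanMatrix.E₈) (c : Kˣ) => hP _ a.1 c) M6 ⊔
          TR (fun (a : Rt CartanMatrix.E₈) (c : Kˣ) => hP _ a.1 c) {hr8, ar8 7}) ?_
        exact TR_mem (C := CartanMatrix.E₈) (K := K) (a := ar8 7)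
          (Set.mem_insert_of_mem _ (Set.mem_singleton _)) c'
      · refine (le_sup_left : _ ≤ TR (fun (a : Rt CartanMatrix.E₈) (c : Kˣ) => hP _ a.1 c) M6 ⊔
          TR (fun (a : Rt CartanMatrix.E₈) (c : Kˣ) => hP _ a.1 c) {hr8, ar8 7}) ?_
        have hmem : (Pi.single i 1 : Fin 8 → ℤ) 6 = 0 ∧ (Pi.single i 1 : Fin 8 → ℤ) 7 = 0 := by
          refine ⟨?_, Pi.single_eq_of_ne (Ne.symm h7) _⟩
          refine Pi.single_eq_of_ne ?_ _
          rintro rfl
          apply hi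
          show 3 * a.1 6 - a.1 6 * 3 = 0
          ring
        exact TR_mem (C := CartanMatrix.E₈) (K := K) (M := M6) (a := ar8 i) hmem c'
    · refine (le_sup_right : _ ≤ TR (fun (a : Rt CartanMatrix.E₈) (c : Kˣ) => hP _ a.1 c) M6 ⊔
        TR (fun (a : Rt CartanMatrix.E₈) (c : Kˣ) => hP _ a.1 c) {hr8, ar8 7}) ?_
      exact TR_mem (C := CartanMatrix.E₈) (K := K) (a := hr8) (Set.mem_insert _ _) _
  · intro t ht hcm
    obtain ⟨c, e, rfl⟩ := TR_two ht
    have key : ∀ d ∈ ({hr8, ar8 7} : Set (Rt CartanMatrix.E₈)),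
        c ^ ip CartanMatrix.E₈ hr8.1 d.1 * e ^ ip CartanMatrix.E₈ (ar8 7).1 d.1 = 1 := by
      intro d hd
      have h1 := R.conj hr8 d c (((e ^ ip CartanMatrix.E₈ (ar8 7).1 d.1 : Kˣ) : K) * 1)
      rw [← R.conj (ar8 7) d e 1] at h1
      have h2 : hP CartanMatrix.E₈ hr8.1 c * (hP CartanMatrix.E₈ (ar8 7).1 e *
          EL.toP CartanMatrix.E₈ K (EL.xr d 1) * (hP CartanMatrix.E₈ (ar8 7).1 e)⁻¹) *
            (hP CartanMatrix.E₈ hr8.1 c)⁻¹ = EL.toP CartanMatrix.E₈ K (EL.xr d 1) := by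
        have h3 := hcm d hd 1
        calc hP CartanMatrix.E₈ hr8.1 c * (hP CartanMatrix.E₈ (ar8 7).1 e *
            EL.toP CartanMatrix.E₈ K (EL.xr d 1) * (hP CartanMatrix.E₈ (ar8 7).1 e)⁻¹) *
              (hP CartanMatrix.E₈ hr8.1 c)⁻¹
            = (hP CartanMatrix.E₈ hr8.1 c * hP CartanMatrix.E₈ (ar8 7).1 e) *
              EL.toP CartanMatrix.E₈ K (EL.xr d 1) *
              (hP CartanMatrix.E₈ hr8.1 c * hP CartanMatrix.E₈ (ar8 7).1 e)⁻¹ := by group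
          _ = EL.toP CartanMatrix.E₈ K (EL.xr d 1) := by
            rw [h3, mul_inv_cancel_right]
      have h3 := R.inj _ _ _ (h1.symm.trans h2)
      rw [mul_one, ← Units.val_mul] at h3
      exact Units.ext h3
    have k1 := key hr8 (Set.mem_insert _ _)
    have k2 := key (ar8 7) (Set.mem_insert_of_mem _ (Set.mem_singleton _))
    have i1 : ip CartanMatrix.E₈ hr8.1 hr8.1 = 2 := hr8.2
    have i2 : ip CartanMatrix.E₈ (ar8 7).1 hr8.1 = 1 := (al8_ip hi8).trans rfl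
    have i3 : ip CartanMatrix.E₈ hr8.1 (ar8 7).1 = 1 := (hi8_ip _).trans rfl
    have i4 : ip CartanMatrix.E₈ (ar8 7).1 (ar8 7).1 = 2 := (ar8 7).2
    rw [i1, i2, zpow_one, zpow_ofNat] at k1
    rw [i3, i4, zpow_one, zpow_ofNat] at k2
    have hc3 : c ^ 3 = 1 := by
      have e1 : c ^ 3 = (c ^ 2 * e) ^ 2 * (c * e ^ 2)⁻¹ := by
        rw [mul_pow, ← pow_mul]
        rw [eq_mul_inv_iff_mul_eq]
        rw [← mul_assoc, ← pow_succ]
      rw [e1, k1, k2, one_pow, inv_one, one_mul]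
    have hc1 : c = 1 := by
      have e1 : c = (c ^ 3) ^ 3 * (c ^ 8)⁻¹ := by
        rw [← pow_mul, eq_mul_inv_iff_mul_eq, ← pow_succ']
      rw [e1, hc3, h8, one_pow, inv_one, one_mul]
    rw [hc1, one_pow, one_mul] at k1
    rw [hc1, k1, hP_one, hP_one, one_mul]
  · intro a d hc
    exact ord_gen (by rw [hcu]; norm_num) (EL.neg_two_le_ip H d a) (EL.ip_le_two H d a) hc

end Pool.Agent.H33.EF
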